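import Pool.Agent.Lib_MP_1209e6_hp.Three
import Pool.Agent.Lib_MP_1209e6_ag.Der
import Pool.Agent.Lib_MP_1209e6_dp.Homog

/-!
# The family of curves of a perfect matching (MP_1209e6_ag)

`w² = ∏ h_j · g`: the line through `x` which meets the `m` spaces `h_(a l) = h_(b l) = 0`.
-/

set_option autoImplicit false

open MvPolynomial Pool.Agent.CampanaFlow

namespace Pool.Agent.HP

variable {K : Type} [Field K] [Algebra ℂ K]

/-- the field of constants of a derivation -/
def kerField (D : Derivation ℂ K K) : IntermediateField ℂ K where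
  carrier := {a | D a = 0}
  mul_mem' := fun {a b} ha hb => by
    show D (a * b) = 0
    rw [Derivation.leibniz, show D a = 0 from ha, show D b = 0 from hb, smul_zero, smul_zero, add_zero]
  one_mem' := Derivation.map_one_eq_zero D
  add_mem' := fun {a b} ha hb => by
    show D (a + b) = 0
    rw [map_add, show D a = 0 from ha, show D b = 0 from hb, add_zero]
  zero_mem' := map_zero D
  algebraMap_mem' := fun c => Derivation.map_algebraMap D c
  inv_mem' := fun a ha => by
    show D a⁻¹ = 0
    rw [Derivation.leibniz_inv, show D a = 0 from ha, smul_zero]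

theorem mem_kerField {D : Derivation ℂ K K} {a : K} : a ∈ kerField D ↔ D a = 0 := Iff.rfl

theorem det_mem (k : IntermediateField ℂ K) {n : ℕ} (M : Matrix (Fin n) (Fin n) K)
    (h : ∀ i j, M i j ∈ k) : M.det ∈ k := by
  rw [Matrix.det_apply']
  exact sum_mem fun σ _ => mul_mem (intCast_mem k _) (prod_mem fun i _ => h _ _)

/-- the family of a perfect matching -/
theorem family {m : ℕ} {ι : Type} {c : ι → ℂ} {lam : ι → Fin (m + 1) → ℂ}
    {x : Fin (m + 1) → K} (d : Fin (m + 1) → Derivation ℂ K K)
    (hd : ∀ i j, d i (x j) = if i = j then 1 else 0) (hH : ∀ j, hval c lam x j ≠ 0)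
    (a b : Fin m → ι) (q : Fin (m + 1) → K)
    (hq : LinearIndependent K (Fin.cons q
      (fun l => eta c lam x (a l) - eta c lam x (b l)) : Fin (m + 1) → Fin (m + 1) → K))
    (g : MvPolynomial (Fin (m + 1)) ℂ) (hg : g.totalDegree ≤ 4) (w : K) (hw0 : w ≠ 0)
    (hw : w ^ 2 = (∏ l, hval c lam x (a l) * hval c lam x (b l)) * aeval x g)
    (hgen : IntermediateField.adjoin ℂ (Set.range x ∪ {w}) = ⊤) :
    ∃ (D : Derivation ℂ K K) (y : Fin (3 + 1) → K), AlmostHomogeneous (kerField D) y ∧
      ∀ u, D u = 0 → ∃ A : Fin m → K,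
        (fun k => d k u) = ∑ l, A l • (eta c lam x (a l) - eta c lam x (b l)) := by
  classical
  set H : ι → K := hval c lam x with hHdef
  set t : Fin m → K := fun l => H (a l) / H (b l) with ht
  set r : Fin m → Fin (m + 1) → K := fun l k =>
    algebraMap ℂ K (lam (a l) k) - t l * algebraMap ℂ K (lam (b l) k) with hrdef
  have hr : ∀ l, r l = H (a l) • (eta c lam x (a l) - eta c lam x (b l)) := by
    intro l
    have h1 := hH (a l)
    have h2 := hH (b l)
    ext k
    simp only [hrdef, ht, eta, Pi.smul_apply, Pi.sub_apply, smul_eq_mul, ← hHdef]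
    field_simp
  set v : Fin (m + 1) → K := fun k =>
    (-1) ^ (k : ℕ) * ((Matrix.of r).submatrix id k.succAbove).det with hv
  have dot : ∀ ξ : Fin (m + 1) → K,
      ∑ k, ξ k * v k = (Matrix.of (Fin.cons ξ r : Fin (m + 1) → Fin (m + 1) → K)).det := by
    intro ξ
    rw [Matrix.det_succ_row_zero]
    refine Finset.sum_congr rfl fun k _ => ?_
    have h1 : (Matrix.of (Fin.cons ξ r : Fin (m + 1) → Fin (m + 1) → K)).submatrix Fin.succ
        k.succAbove = (Matrix.of r).submatrix id k.succAbove := by
      ext i j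
      simp [Matrix.submatrix_apply]
    rw [h1]
    simp only [hv, Matrix.of_apply, Fin.cons_zero]
    ring
  have hrv : ∀ l, ∑ k, r l k * v k = 0 := by
    intro l
    rw [dot]
    refine Matrix.det_zero_of_row_eq (i := 0) (j := l.succ) (Ne.symm (Fin.succ_ne_zero l)) ?_
    ext k
    simp [Matrix.of_apply]
  have hqr : LinearIndependent K (Fin.cons q r : Fin (m + 1) → Fin (m + 1) → K) := by
    have h1 := hq.units_smul (Fin.cons 1 fun l => Units.mk0 (H (a l)) (hH (a l)))
    convert h1 using 1
    funext k
    refine Fin.cases ?_ (fun l => ?_) k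
    · simp
    · simp only [Fin.cons_succ, Pi.smul_apply', hr, Units.smul_def, Units.val_mk0]
  have hrind : LinearIndependent K r := (linearIndependent_finCons.1 hqr).1
  obtain ⟨k₀, hk₀⟩ : ∃ k, v k ≠ 0 := by
    by_contra hcon
    push Not at hcon
    have h1 := dot q
    simp only [hcon, mul_zero, Finset.sum_const_zero] at h1
    exact det_ne_zero_of_rows hqr h1.symm
  set w' : K := w / ∏ l, H (b l) with hw'
  have hPb : ∏ l, H (b l) ≠ 0 := Finset.prod_ne_zero_iff.2 fun l _ => hH _
  have hw'0 : w' ≠ 0 := div_ne_zero hw0 hPb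
  set D : Derivation ℂ K K := w' • ∑ k, v k • d k with hD
  have hDz : ∀ z, D z = w' * ∑ k, d k z * v k := by
    intro z
    rw [hD, Derivation.smul_apply, smul_eq_mul]
    congr 1
    have h1 : (∑ k, v k • d k : Derivation ℂ K K) z = ∑ k, (v k • d k : Derivation ℂ K K) z := by
      have h2 := map_sum (Derivation.coeFnAddMonoidHom (R := ℂ) (A := K) (M := K))
        (fun k => v k • d k) Finset.univ
      have h3 := congrFun h2 z
      rw [Finset.sum_apply] at h3
      exact h3
    rw [h1]
    refine Finset.sum_congr rfl fun k _ => ?_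
    rw [Derivation.smul_apply, smul_eq_mul, mul_comm]
  have hDx : ∀ j, D (x j) = w' * v j := by
    intro j
    rw [hDz]
    simp only [hd, ite_mul, one_mul, zero_mul, Finset.sum_ite_eq', Finset.mem_univ, if_true]
  have hDH : ∀ j, D (H j) = w' * ∑ k, algebraMap ℂ K (lam j k) * v k := by
    intro j
    simp only [hHdef, hval, map_add, map_sum, Derivation.map_algebraMap, zero_add,
      Derivation.leibniz, add_zero, hDx, smul_eq_mul, mul_zero]
    rw [Finset.mul_sum]
    refine Finset.sum_congr rfl fun k _ => ?_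
    ring
  have hDt : ∀ l, D (t l) = 0 := by
    intro l
    have h1 : H (a l) = t l * H (b l) := by
      simp only [ht]
      rw [div_mul_cancel₀ _ (hH (b l))]
    have h2 := congrArg D h1
    rw [Derivation.leibniz, hDH, hDH, smul_eq_mul, smul_eq_mul] at h2
    have h3 : w' * ∑ k, r l k * v k = w' * (∑ k, algebraMap ℂ K (lam (a l) k) * v k) -
        t l * (w' * ∑ k, algebraMap ℂ K (lam (b l) k) * v k) := by
      simp only [hrdef, sub_mul, Finset.sum_sub_distrib, mul_assoc, ← Finset.mul_sum]
      ring
    rw [hrv, mul_zero] at h3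
    have h4 : H (b l) * D (t l) = 0 := by linear_combination h2.symm - h3
    exact (mul_eq_zero.1 h4).resolve_left (hH _)
  have hrk : ∀ l k, r l k ∈ kerField D := by
    intro l k
    exact sub_mem (algebraMap_mem _ _) (mul_mem (mem_kerField.2 (hDt l)) (algebraMap_mem _ _))
  have hvk : ∀ k, v k ∈ kerField D := by
    intro k
    exact mul_mem (pow_mem (neg_mem (one_mem _)) _) (det_mem _ _ fun i j => hrk _ _)
  set s : K := x k₀ / v k₀ with hs
  have hsv : x k₀ = s * v k₀ := by rw [hs, div_mul_cancel₀ _ hk₀]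
  have hDs : D s = w' := by
    have h1 := congrArg D hsv
    rw [hDx, Derivation.leibniz, mem_kerField.1 (hvk k₀), smul_zero, zero_add, smul_eq_mul] at h1
    exact mul_left_cancel₀ hk₀ (by rw [← h1, mul_comm])
  set p : Fin (m + 1) → K := fun k => x k - s * v k with hp
  have hpk : ∀ k, p k ∈ kerField D := by
    intro k
    rw [mem_kerField]
    simp only [hp]
    rw [map_sub, Derivation.leibniz, mem_kerField.1 (hvk k), hDx, hDs, smul_eq_mul, smul_eq_mul]
    ring
  have htk : ∏ l, t l ∈ kerField D := prod_mem fun l _ => mem_kerField.2 (hDt l)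
  let Q : Polynomial (kerField D) := Polynomial.C ⟨∏ l, t l, htk⟩ *
    aeval (fun k => Polynomial.C (⟨p k, hpk k⟩ : kerField D) +
      Polynomial.X * Polynomial.C (⟨v k, hvk k⟩ : kerField D)) g
  have hQeval : (Q.map (algebraMap (kerField D) K)).eval s = (∏ l, t l) * aeval x g := by
    rw [Polynomial.eval_map]
    have h1 : Q.eval₂ (algebraMap (kerField D) K) s = Polynomial.aeval s Q := rfl
    rw [h1]
    simp only [Q, map_mul, Polynomial.aeval_C]
    have h2 : Polynomial.aeval s (aeval (fun k => Polynomial.C (⟨p k, hpk k⟩ : kerField D) +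
        Polynomial.X * Polynomial.C (⟨v k, hvk k⟩ : kerField D)) g) =
        aeval (fun k => Polynomial.aeval s (Polynomial.C (⟨p k, hpk k⟩ : kerField D) +
        Polynomial.X * Polynomial.C (⟨v k, hvk k⟩ : kerField D))) g :=
      comp_aeval_apply _ ((Polynomial.aeval s : Polynomial (kerField D) →ₐ[kerField D] K).restrictScalars ℂ) g
    rw [h2]
    congr 1
    congr 2
    funext k
    rw [map_add, map_mul, Polynomial.aeval_C, Polynomial.aeval_C, Polynomial.aeval_X]
    show p k + s * v k = x k
    simp only [hp]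
    ring
  have hQdeg : (Q.map (algebraMap (kerField D) K)).natDegree ≤ 4 := by
    refine Polynomial.natDegree_map_le.trans ?_
    refine (Polynomial.natDegree_C_mul_le _ _).trans ?_
    rw [← MvPolynomial.aeval_map_algebraMap (kerField D)]
    refine (MvPolynomial.aeval_natDegree_le (m := 4) (n := 1) _ ?_ _ fun k => ?_).trans le_rfl
    · exact (Finset.sup_mono (MvPolynomial.support_map_subset _ _)).trans hg
    · refine (Polynomial.natDegree_add_le _ _).trans ?_
      rw [Polynomial.natDegree_C, Nat.zero_max]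
      exact (Polynomial.natDegree_mul_C_le _ _).trans Polynomial.natDegree_X_le
  have hwsq : w' ^ 2 = (Q.map (algebraMap (kerField D) K)).eval s := by
    rw [hQeval]
    simp only [hw', div_pow, hw, ht, Finset.prod_mul_distrib, Finset.prod_div_distrib]
    field_simp
  have hgen' : IntermediateField.adjoin ℂ ((kerField D : Set K) ∪ {s, w'}) = ⊤ := by
    rw [eq_top_iff, ← hgen, IntermediateField.adjoin_le_iff]
    have hk : ∀ z ∈ kerField D, z ∈ IntermediateField.adjoin ℂ ((kerField D : Set K) ∪ {s, w'}) :=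
      fun z hz => IntermediateField.subset_adjoin _ _ (Or.inl hz)
    have hs' : s ∈ IntermediateField.adjoin ℂ ((kerField D : Set K) ∪ {s, w'}) :=
      IntermediateField.subset_adjoin _ _ (Or.inr (Or.inl rfl))
    have hw'' : w' ∈ IntermediateField.adjoin ℂ ((kerField D : Set K) ∪ {s, w'}) :=
      IntermediateField.subset_adjoin _ _ (Or.inr (Or.inr rfl))
    have hx' : ∀ k, x k ∈ IntermediateField.adjoin ℂ ((kerField D : Set K) ∪ {s, w'}) := by
      intro k
      have h1 : x k = p k + s * v k := by
        simp only [hp]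
        ring
      rw [h1]
      exact add_mem (hk _ (hpk k)) (mul_mem hs' (hk _ (hvk k)))
    rintro z (⟨k, rfl⟩ | hz)
    · exact hx' k
    · rw [Set.mem_singleton_iff.1 hz]
      have h1 : w = w' * ∏ l, H (b l) := by rw [hw', div_mul_cancel₀ _ hPb]
      rw [h1]
      refine mul_mem hw'' (prod_mem fun l _ => ?_)
      exact add_mem (algebraMap_mem _ _) (sum_mem fun k _ => mul_mem (algebraMap_mem _ _) (hx' k))
  have hst : ¬ IsAlgebraic (kerField D) s := by
    intro h1
    exact hw'0 (hDs ▸ Pool.Agent.Campana.derivation_eq_zero D (kerField D) (fun z hz => hz) s h1)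
  obtain ⟨hAH, -⟩ := Pool.Agent.DP.homogeneous (kerField D) s w'
    (Q.map (algebraMap (kerField D) K)) (fun n => by
      rw [Polynomial.coeff_map]
      exact (Q.coeff n).2) hQdeg hst hwsq hw'0 hgen' D (fun z hz => hz) hDs
  refine ⟨D, _, hAH, fun u hu => ?_⟩
  rw [hDz] at hu
  have h1 := (mul_eq_zero.1 hu).resolve_left hw'0
  rw [dot] at h1
  have h2 : (fun k => d k u) ∈ Submodule.span K (Set.range r) := by
    by_contra hcon
    exact det_ne_zero_of_rows (linearIndependent_finCons.2 ⟨hrind, hcon⟩) h1
  rw [Submodule.mem_span_range_iff_exists_fun] at h2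
  obtain ⟨A, hA⟩ := h2
  refine ⟨fun l => A l * H (a l), ?_⟩
  rw [← hA]
  refine Finset.sum_congr rfl fun l _ => ?_
  rw [hr, smul_smul]

end Pool.Agent.HP
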