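import Mathlib

/-!
# Hyperplanes in general position: linear algebra (MP_1209e6_ag)

`h_j = c_j + ∑ lam_{j,k} x_k`, `η_j = d h_j / h_j`. The logarithmic forms `η_{a_l} - η_{b_l}` of the pairs of
a perfect matching `(a_l, b_l)` of the `h_j` span a space `W`; the intersection of these spaces for all
perfect matchings is zero.
-/

set_option autoImplicit false

open MvPolynomial

namespace Pool.Agent.HP

/-- The linear polynomials `c j + ∑ k, lam j k * X k` and the hyperplane at infinity are in general
position: any `n` of the linear parts and any `n + 1` of the polynomials are linearly independent. -/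
structure GenPos {ι : Type} {n : ℕ} (c : ι → ℂ) (lam : ι → Fin n → ℂ) : Prop where
  lin : ∀ σ : Fin n → ι, Function.Injective σ → LinearIndependent ℂ fun i => lam (σ i)
  aff : ∀ σ : Fin (n + 1) → ι, Function.Injective σ →
    LinearIndependent ℂ fun i => (Fin.cons (c (σ i)) (lam (σ i)) : Fin (n + 1) → ℂ)

/-- the value of the `j`-th linear polynomial -/
def hval {ι : Type} {n : ℕ} {A : Type} [CommRing A] [Algebra ℂ A] (c : ι → ℂ) (lam : ι → Fin n → ℂ)
    (x : Fin n → A) (j : ι) : A :=
  algebraMap ℂ A (c j) + ∑ k, algebraMap ℂ A (lam j k) * x k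

theorem hval_map {ι : Type} {n : ℕ} {A B : Type} [CommRing A] [Algebra ℂ A] [CommRing B] [Algebra ℂ B]
    (φ : A →ₐ[ℂ] B) (c : ι → ℂ) (lam : ι → Fin n → ℂ) (x : Fin n → A) (j : ι) :
    φ (hval c lam x j) = hval c lam (fun k => φ (x k)) j := by
  simp only [hval, map_add, map_sum, map_mul, AlgHom.commutes]

theorem det_ne_zero_of_rows {F : Type} [Field F] {n : ℕ} {v : Fin n → Fin n → F}
    (h : LinearIndependent F v) : (Matrix.of v).det ≠ 0 := by
  have h1 : IsUnit (Matrix.of v) := by
    rw [← Matrix.linearIndependent_rows_iff_isUnit]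
    exact h
  exact ((Matrix.isUnit_iff_isUnit_det _).1 h1).ne_zero

theorem rows_of_det_ne_zero {F : Type} [Field F] {n : ℕ} {v : Fin n → Fin n → F}
    (h : (Matrix.of v).det ≠ 0) : LinearIndependent F v := by
  have h1 : IsUnit (Matrix.of v) := (Matrix.isUnit_iff_isUnit_det _).2 (isUnit_iff_ne_zero.2 h)
  rw [← Matrix.linearIndependent_rows_iff_isUnit] at h1
  exact h1

/-- a point on `n` of the hyperplanes is not on any other hyperplane -/
theorem exists_pt {ι : Type} {n : ℕ} {c : ι → ℂ} {lam : ι → Fin n → ℂ} (h : GenPos c lam)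
    (β : Fin n → ι) (hβ : Function.Injective β) :
    ∃ y : Fin n → ℂ, (∀ i, hval c lam y (β i) = 0) ∧ ∀ j, j ∉ Set.range β → hval c lam y j ≠ 0 := by
  have hdet := det_ne_zero_of_rows (h.lin β hβ)
  set M : Matrix (Fin n) (Fin n) ℂ := Matrix.of fun i => lam (β i) with hM
  have hMu : IsUnit M.det := isUnit_iff_ne_zero.2 hdet
  refine ⟨M⁻¹.mulVec fun i => - c (β i), fun i => ?_, fun j hj h0 => ?_⟩
  · have h1 : M.mulVec (M⁻¹.mulVec fun i => - c (β i)) = fun i => - c (β i) := by
      rw [Matrix.mulVec_mulVec, Matrix.mul_nonsing_inv _ hMu, Matrix.one_mulVec]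
    have h2 := congrFun h1 i
    have h3 : M.mulVec (M⁻¹.mulVec fun i => - c (β i)) i =
        ∑ k, lam (β i) k * (M⁻¹.mulVec fun i => - c (β i)) k := rfl
    rw [h3] at h2
    simp only [hval, Algebra.algebraMap_self, RingHom.id_apply]
    rw [h2]
    ring
  · set y := M⁻¹.mulVec fun i => - c (β i) with hy
    have h1 : M.mulVec y = fun i => - c (β i) := by
      rw [hy, Matrix.mulVec_mulVec, Matrix.mul_nonsing_inv _ hMu, Matrix.one_mulVec]
    have hσ : Function.Injective (Fin.cons j β : Fin (n + 1) → ι) :=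
      Fin.cons_injective_iff.2 ⟨hj, hβ⟩
    have h2 := det_ne_zero_of_rows (h.aff _ hσ)
    have h3 := Matrix.eq_zero_of_mulVec_eq_zero (v := (Fin.cons 1 y : Fin (n + 1) → ℂ)) h2 (by
      funext i
      have h4 : (Matrix.of fun i => (Fin.cons (c ((Fin.cons j β : Fin (n + 1) → ι) i))
          (lam ((Fin.cons j β : Fin (n + 1) → ι) i)) : Fin (n + 1) → ℂ)).mulVec
          (Fin.cons 1 y : Fin (n + 1) → ℂ) i =
          ∑ k, (Fin.cons (c ((Fin.cons j β : Fin (n + 1) → ι) i))
          (lam ((Fin.cons j β : Fin (n + 1) → ι) i)) : Fin (n + 1) → ℂ) k *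
          (Fin.cons 1 y : Fin (n + 1) → ℂ) k := rfl
      rw [h4, Fin.sum_univ_succ]
      simp only [Fin.cons_zero, Fin.cons_succ, mul_one, Pi.zero_apply]
      refine Fin.cases ?_ (fun i => ?_) i
      · simp only [Fin.cons_zero]
        simpa only [hval, Algebra.algebraMap_self, RingHom.id_apply] using h0
      · simp only [Fin.cons_succ]
        have h5 := congrFun h1 i
        have h6 : M.mulVec y i = ∑ k, lam (β i) k * y k := rfl
        rw [h6] at h5
        rw [h5]
        ring)
    have h7 := congrFun h3 0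
    simp at h7

section field

variable {K : Type} [Field K] [Algebra ℂ K]

/-- the logarithmic form `d h_j / h_j` -/
def eta {ι : Type} {n : ℕ} (c : ι → ℂ) (lam : ι → Fin n → ℂ) (x : Fin n → K) (j : ι) : Fin n → K :=
  fun k => algebraMap ℂ K (lam j k) / hval c lam x j

/-- the linear polynomials do not vanish at the generic point -/
theorem hval_ne_zero {ι : Type} {n : ℕ} {c : ι → ℂ} {lam : ι → Fin n → ℂ} (h : GenPos c lam)
    {x : Fin n → K} (hx : AlgebraicIndependent ℂ x) (j : ι)
    (β : Fin n → ι) (hβ : Function.Injective β) (hj : j ∉ Set.range β) : hval c lam x j ≠ 0 := by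
  obtain ⟨y, -, hy⟩ := exists_pt h β hβ
  have h1 : hval c lam (X : Fin n → MvPolynomial (Fin n) ℂ) j ≠ 0 := by
    intro h2
    have h3 := congrArg (aeval y) h2
    rw [hval_map, map_zero] at h3
    simp only [aeval_X] at h3
    exact hy j hj h3
  have h2 : hval c lam x j = aeval x (hval c lam (X : Fin n → MvPolynomial (Fin n) ℂ) j) := by
    rw [hval_map]
    simp only [aeval_X]
  rw [h2]
  intro h3
  exact h1 ((map_eq_zero_iff _ hx).1 h3)

/-- `n` hyperplanes `β i`, and for each of them a hyperplane `α i` which is none of the `β`: the forms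
`η (α i) - η (β i)` are linearly independent -/
theorem indep {ι : Type} {n : ℕ} {c : ι → ℂ} {lam : ι → Fin n → ℂ} (h : GenPos c lam)
    {x : Fin n → K} (hx : AlgebraicIndependent ℂ x) (hH : ∀ j, hval c lam x j ≠ 0)
    (β α : Fin n → ι) (hβ : Function.Injective β) (hα : ∀ i, α i ∉ Set.range β) :
    LinearIndependent K fun i => eta c lam x (α i) - eta c lam x (β i) := by
  obtain ⟨y, hy0, hy⟩ := exists_pt h β hβ
  set P : Matrix (Fin n) (Fin n) (MvPolynomial (Fin n) ℂ) := Matrix.of fun i k =>
    hval c lam X (β i) * C (lam (α i) k) - hval c lam X (α i) * C (lam (β i) k) with hP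
  have hPdet : P.det ≠ 0 := by
    intro h0
    have h1 := congrArg (aeval y) h0
    rw [AlgHom.map_det, map_zero] at h1
    have h2 : (aeval y).mapMatrix P = Matrix.of fun i k => (- hval c lam y (α i)) *
        (Matrix.of fun i => lam (β i)) i k := by
      ext i k
      simp only [AlgHom.mapMatrix_apply, Matrix.map_apply, hP, Matrix.of_apply, map_sub, map_mul,
        hval_map, aeval_X, hy0, zero_mul, zero_sub, aeval_C, Algebra.algebraMap_self,
        RingHom.id_apply, neg_mul]
    rw [h2, Matrix.det_mul_column] at h1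
    rcases mul_eq_zero.1 h1 with h3 | h3
    · rw [Finset.prod_eq_zero_iff] at h3
      obtain ⟨i, -, hi⟩ := h3
      exact hy (α i) (hα i) (neg_eq_zero.1 hi)
    · exact det_ne_zero_of_rows (h.lin β hβ) h3
  set N : Fin n → Fin n → K := fun i k =>
    hval c lam x (β i) * algebraMap ℂ K (lam (α i) k) -
      hval c lam x (α i) * algebraMap ℂ K (lam (β i) k) with hN
  have hNdet : (Matrix.of N).det ≠ 0 := by
    have h1 : Matrix.of N = (aeval x).mapMatrix P := by
      ext i k
      simp only [AlgHom.mapMatrix_apply, Matrix.map_apply, hP, Matrix.of_apply, map_sub, map_mul,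
        hval_map, aeval_X, aeval_C, hN]
    rw [h1, ← AlgHom.map_det]
    intro h2
    exact hPdet ((map_eq_zero_iff _ hx).1 h2)
  have h1 := (rows_of_det_ne_zero hNdet).units_smul fun i =>
    (Units.mk0 (hval c lam x (α i) * hval c lam x (β i)) (mul_ne_zero (hH _) (hH _)))⁻¹
  convert h1 using 1
  funext i
  ext k
  simp only [Pi.smul_apply', Pi.smul_apply, Pi.sub_apply, eta, hN, Units.smul_def, smul_eq_mul,
    Units.val_inv_eq_inv_val, Units.val_mk0]
  have h2 := hH (α i)
  have h3 := hH (β i)
  field_simp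

end field

end Pool.Agent.HP
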