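import Pool.Agent.Lib_MP_1209e6_hp.Fam
import Pool.Agent.Lib_MP_1209e6_nt.End
import Pool.Agent.Lib_MP_1209e6_k3.Special

/-!
# Double covers of projective space branched along hyperplanes and a quartic (MP_1209e6_ag)
-/

set_option autoImplicit false

open MvPolynomial Pool.Agent.Campana Pool.Agent.CampanaFlow

namespace Pool.Agent.HP

section field

variable {K : Type} [Field K] [Algebra ℂ K]

theorem comb_apply {m : ℕ} (d : Fin m → Derivation ℂ K K) (y : Fin m → K) (z : K) :
    (∑ j, y j • d j : Derivation ℂ K K) z = ∑ j, y j * d j z := by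
  have h2 := map_sum (Derivation.coeFnAddMonoidHom (R := ℂ) (A := K) (M := K))
    (fun k => y k • d k) Finset.univ
  have h3 := congrFun h2 z
  rw [Finset.sum_apply] at h3
  exact h3

theorem der_zero {ι : Type} [Fintype ι] {m : ℕ} {c : ι → ℂ} {lam : ι → Fin (m + 1) → ℂ}
    {x : Fin (m + 1) → K} (g : MvPolynomial (Fin (m + 1)) ℂ) (w : K) (hw0 : w ≠ 0)
    (hw : w ^ 2 = (∏ j, hval c lam x j) * aeval x g)
    (hgen : IntermediateField.adjoin ℂ (Set.range x ∪ {w}) = ⊤) (D : Derivation ℂ K K)
    (hD : ∀ j, D (x j) = 0) (z : K) : D z = 0 := by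
  have h0 : CharZero K := charZero_of_injective_algebraMap (algebraMap ℂ K).injective
  have hx : ∀ j, x j ∈ kerField D := fun j => mem_kerField.2 (hD j)
  have h1 : w ^ 2 ∈ kerField D := by
    rw [hw]
    refine mul_mem (prod_mem fun j _ => add_mem (algebraMap_mem _ _) (sum_mem fun k _ =>
      mul_mem (algebraMap_mem _ _) (hx k))) ?_
    have h2 : aeval x g = algebraMap (kerField D) K (aeval (fun j => (⟨x j, hx j⟩ : kerField D)) g) := by
      have h3 := comp_aeval_apply (fun j => (⟨x j, hx j⟩ : kerField D))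
        (IsScalarTower.toAlgHom ℂ (kerField D) K) g
      exact h3.symm
    rw [h2]
    exact Subtype.property _
  have h2 : D w = 0 := by
    have h3 := mem_kerField.1 h1
    rw [Derivation.leibniz_pow] at h3
    simp only [Nat.add_one_sub_one, pow_one, smul_eq_mul, nsmul_eq_mul] at h3
    have h4 : (2 : K) * w ≠ 0 := mul_ne_zero two_ne_zero hw0
    exact (mul_eq_zero.1 (by rw [mul_assoc]; exact_mod_cast h3 : (2 : K) * w * D w = 0)).resolve_left h4
  have h3 : z ∈ kerField D := by
    have h4 : (⊤ : IntermediateField ℂ K) ≤ kerField D := by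
      rw [← hgen, IntermediateField.adjoin_le_iff]
      rintro y (⟨j, rfl⟩ | hy)
      · exact hx j
      · rw [Set.mem_singleton_iff.1 hy]
        exact h2
    exact h4 trivial
  exact h3

/-- the covering families -/
theorem covers {m : ℕ} (hm : 2 ≤ m) {c : Fin m ⊕ Fin m → ℂ} {lam : Fin m ⊕ Fin m → Fin (m + 1) → ℂ}
    (h : GenPos c lam) {x : Fin (m + 1) → K} (hx : AlgebraicIndependent ℂ x)
    (g : MvPolynomial (Fin (m + 1)) ℂ) (hg0 : g ≠ 0) (hg : g.totalDegree ≤ 4) (w : K)
    (hw : w ^ 2 = (∏ j, hval c lam x j) * aeval x g)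
    (hgen : IntermediateField.adjoin ℂ (Set.range x ∪ {w}) = ⊤) :
    ∃ (r : ℕ) (k : Fin r → IntermediateField ℂ K) (y : Fin r → Fin (3 + 1) → K),
      (∀ i, AlmostHomogeneous (k i) (y i)) ∧
      ∀ u, (∀ i, IsAlgebraic (k i) u) → ∃ c : ℂ, u = algebraMap ℂ K c := by
  classical
  have hH : ∀ j, hval c lam x j ≠ 0 := by
    intro j
    obtain ⟨e⟩ : Nonempty (Fin (m + 1) ↪ {k : Fin m ⊕ Fin m // k ≠ j}) := by
      apply Function.Embedding.nonempty_of_card_le
      rw [Fintype.card_fin, Fintype.card_subtype_compl, Fintype.card_sum, Fintype.card_fin,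
        Fintype.card_subtype_eq]
      omega
    refine hval_ne_zero h hx j (fun i => (e i : Fin m ⊕ Fin m))
      (fun i i' hi => e.injective (Subtype.ext hi)) ?_
    rintro ⟨i, hi⟩
    exact (e i).2 hi
  have hw0 : w ≠ 0 := by
    rintro rfl
    rw [zero_pow two_ne_zero, eq_comm, mul_eq_zero] at hw
    rcases hw with h1 | h1
    · rw [Finset.prod_eq_zero_iff] at h1
      obtain ⟨j, -, hj⟩ := h1
      exact hH j hj
    · exact hg0 ((map_eq_zero_iff _ hx).1 h1)
  choose d hd using fun i : Fin (m + 1) =>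
    exists_derivation (k := ℂ) x hx fun j => if i = j then 1 else 0
  let i₀ : Fin m := ⟨0, by omega⟩
  let i₁ : Fin m := ⟨1, by omega⟩
  have h01 : i₀ ≠ i₁ := by
    intro h1
    have := congrArg Fin.val h1
    simp [i₀, i₁] at this
  have hfam : ∀ π : Equiv.Perm (Fin m ⊕ Fin m), ∃ (D : Derivation ℂ K K) (y : Fin (3 + 1) → K),
      AlmostHomogeneous (kerField D) y ∧ ∀ u, D u = 0 → ∃ A : Fin m → K,
        (fun k => d k u) = ∑ l, A l •
          (eta c lam x (π (Sum.inl l)) - eta c lam x (π (Sum.inr l))) := by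
    intro π
    refine family d hd hH (fun l => π (Sum.inl l)) (fun l => π (Sum.inr l)) _
      (cons_indep h hx hH (fun l => π (Sum.inl l)) (fun l => π (Sum.inr l))
        (π.injective.comp Sum.inl_injective) (π.injective.comp Sum.inr_injective)
        (fun l l' h1 => Sum.inl_ne_inr (π.injective h1)) i₀ i₁ h01) g hg w hw0 ?_ hgen
    rw [hw, ← Equiv.prod_comp π, Fintype.prod_sum_type, Finset.prod_mul_distrib]
  choose D y hAH hD using hfam
  let e := Fintype.equivFin (Equiv.Perm (Fin m ⊕ Fin m))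
  refine ⟨_, fun i => kerField (D (e.symm i)), fun i => y (e.symm i), fun i => hAH _, fun u hu => ?_⟩
  have hDu : ∀ π, D π u = 0 := by
    intro π
    have h1 := derivation_eq_zero (D (e.symm (e π))) (kerField (D (e.symm (e π))))
      (fun z hz => hz) u (hu (e π))
    rwa [Equiv.symm_apply_apply] at h1
  have hdu := three hm h hx hH (fun k => d k u) fun π => hD π u (hDu π)
  by_contra hcon
  have htr : Transcendental ℂ u := by
    intro halg
    apply hcon
    obtain ⟨c, hc⟩ := minpoly.mem_range_of_degree_eq_one ℂ u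
      (IsAlgClosed.degree_eq_one_of_irreducible ℂ (minpoly.irreducible halg.isIntegral))
    exact ⟨c, hc.symm⟩
  obtain ⟨δ, hδ⟩ := exists_derivation (k := ℂ) (fun _ : Unit => u)
    ((algebraicIndependent_unique_type_iff (R := ℂ) (x := fun _ : Unit => u)).2 htr) fun _ => 1
  have h1 := der_zero g w hw0 hw hgen (δ - ∑ j, δ (x j) • d j) (fun j => by
    rw [Derivation.sub_apply, comb_apply]
    simp only [hd, mul_ite, mul_one, mul_zero, Finset.sum_ite_eq', Finset.mem_univ, if_true, sub_self]) u
  rw [Derivation.sub_apply, comb_apply, hδ ()] at h1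
  have h2 : ∀ j, d j u = 0 := fun j => congrFun hdu j
  simp only [h2, mul_zero, Finset.sum_const_zero, sub_zero] at h1
  exact one_ne_zero h1

end field

/-- The double cover of projective `n`-space (`n = m + 1 ≥ 3`) branched along `2n - 2` hyperplanes in
general position (with the hyperplane at infinity) and an arbitrary quartic is special and Brody-special. -/
theorem hyperplanes {m : ℕ} (hm : 2 ≤ m) {c : Fin (m + m) → ℂ} {lam : Fin (m + m) → Fin (m + 1) → ℂ}
    (h : GenPos c lam) (g : MvPolynomial (Fin (m + 1)) ℂ) (hg0 : g ≠ 0) (hg : g.totalDegree ≤ 4)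
    {n : ℕ} (P : Ideal (MvPolynomial (Fin (n + 1)) ℂ)) [P.IsPrime] (hP : IsVariety P)
    (x : Fin (m + 1) → FunField P) (w : FunField P) (hx : AlgebraicIndependent ℂ x)
    (hw : w ^ 2 = (∏ j, hval c lam x j) * aeval x g)
    (hgen : IntermediateField.adjoin ℂ (Set.range x ∪ {w}) = ⊤) :
    SpecialField (FunField P) ∧ BrodySpecial P := by
  have h' : GenPos (fun j => c (finSumFinEquiv j)) (fun j => lam (finSumFinEquiv j)) :=
    ⟨fun σ hσ => h.lin (fun i => finSumFinEquiv (σ i)) (finSumFinEquiv.injective.comp hσ),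
      fun σ hσ => h.aff (fun i => finSumFinEquiv (σ i)) (finSumFinEquiv.injective.comp hσ)⟩
  have hw' : w ^ 2 = (∏ j, hval (fun j => c (finSumFinEquiv j)) (fun j => lam (finSumFinEquiv j)) x j) *
      aeval x g := by
    rw [hw, ← Equiv.prod_comp finSumFinEquiv]
    rfl
  obtain ⟨r, k, y, hy, hu⟩ := covers hm h' hx g hg0 hg w hw' hgen
  exact ⟨Pool.Agent.K3.special_covers (funField_fg P) (fun _ : Fin r => FunField P) k (fun _ => 3) y hy
      fun u h1 => hu u h1,
    Pool.Agent.CampanaNT.brody_covers P hP (fun _ : Fin r => FunField P) k (fun _ => 3) y hy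
      fun u h1 => hu u h1⟩

end Pool.Agent.HP
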