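import Pool.Agent.Lib_MP_1209e6_hp.Lin

/-!
# Three matchings (MP_1209e6_ag)
-/

set_option autoImplicit false

open MvPolynomial

namespace Pool.Agent.HP

variable {K : Type} [Field K] [Algebra ℂ K]

/-- The forms `e l = η (a l) - η (b l)` together with `q = η (a i) - η (a j)` are a basis; `φ`, `φ₀` are
the dual functionals, up to the change `e j = r - q`, `r = η (a i) - η (b j)`. -/
theorem dual {ι : Type} {m : ℕ} {c : ι → ℂ} {lam : ι → Fin (m + 1) → ℂ} (h : GenPos c lam)
    {x : Fin (m + 1) → K} (hx : AlgebraicIndependent ℂ x) (hH : ∀ j, hval c lam x j ≠ 0)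
    (a b : Fin m → ι) (ha : Function.Injective a) (hb : Function.Injective b)
    (hab : ∀ l l', a l ≠ b l') (i j : Fin m) (hij : i ≠ j) :
    ∃ (φ₀ : (Fin (m + 1) → K) →ₗ[K] K) (φ : Fin m → (Fin (m + 1) → K) →ₗ[K] K),
      (∀ l l', φ l (eta c lam x (a l') - eta c lam x (b l')) = if l = l' then 1 else 0) ∧
      (∀ l, φ l (eta c lam x (a i) - eta c lam x (a j)) = 0) ∧
      φ₀ (eta c lam x (a i) - eta c lam x (a j)) = 1 ∧
      (∀ l, l ≠ j → φ₀ (eta c lam x (a l) - eta c lam x (b l)) = 0) ∧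
      φ₀ (eta c lam x (a j) - eta c lam x (b j)) = -1 := by
  classical
  have hβ : Function.Injective (Fin.cons (a j) b : Fin (m + 1) → ι) :=
    Fin.cons_injective_iff.2 ⟨fun ⟨l, hl⟩ => hab j l hl.symm, hb⟩
  have hind := indep h hx hH (Fin.cons (a j) b)
    (Fin.cons (a i) fun l => if l = j then a i else a l) hβ (by
      rintro k ⟨k', hk'⟩
      revert hk'
      refine Fin.cases ?_ (fun l => ?_) k <;> refine Fin.cases ?_ (fun l' => ?_) k'
      · simp only [Fin.cons_zero]
        exact fun h1 => hij (ha h1).symm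
      · simp only [Fin.cons_zero, Fin.cons_succ]
        exact fun h1 => hab _ _ h1.symm
      · simp only [Fin.cons_zero, Fin.cons_succ]
        intro h1
        by_cases h2 : l = j
        · rw [if_pos h2] at h1
          exact hij (ha h1).symm
        · rw [if_neg h2] at h1
          exact h2 (ha h1).symm
      · simp only [Fin.cons_succ]
        intro h1
        by_cases h2 : l = j
        · rw [if_pos h2] at h1
          exact hab _ _ h1.symm
        · rw [if_neg h2] at h1
          exact hab _ _ h1.symm)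
  set f : Fin (m + 1) → Fin (m + 1) → K := fun k =>
    eta c lam x ((Fin.cons (a i) fun l => if l = j then a i else a l : Fin (m + 1) → ι) k) -
      eta c lam x ((Fin.cons (a j) b : Fin (m + 1) → ι) k) with hf
  let B := basisOfLinearIndependentOfCardEqFinrank hind (by simp)
  have hB : ∀ k k', B.coord k (f k') = if k' = k then 1 else 0 := by
    intro k k'
    have h1 : B k' = f k' := by
      simp only [B, coe_basisOfLinearIndependentOfCardEqFinrank]
    rw [← h1, Module.Basis.coord_apply, Module.Basis.repr_self, Finsupp.single_apply]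
  have h0 : f 0 = eta c lam x (a i) - eta c lam x (a j) := by simp only [hf, Fin.cons_zero]
  have hs : ∀ l, l ≠ j → f l.succ = eta c lam x (a l) - eta c lam x (b l) := by
    intro l hl
    simp only [hf, Fin.cons_succ, if_neg hl]
  have hj : f j.succ = eta c lam x (a i) - eta c lam x (b j) := by
    simp only [hf, Fin.cons_succ, if_true]
  have hj' : eta c lam x (a j) - eta c lam x (b j) = f j.succ - f 0 := by
    rw [hj, h0]
    abel
  refine ⟨B.coord 0, fun l => B.coord l.succ, fun l l' => ?_, fun l => ?_, ?_, fun l hl => ?_, ?_⟩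
  · by_cases hl : l' = j
    · subst hl
      rw [hj', map_sub, hB, hB]
      simp only [Fin.succ_inj, Ne.symm (Fin.succ_ne_zero l), if_false, sub_zero]
      simp only [eq_comm]
    · rw [← hs l' hl, hB]
      simp only [Fin.succ_inj, eq_comm]
  · rw [← h0, hB, if_neg (Ne.symm (Fin.succ_ne_zero l))]
  · rw [← h0, hB, if_pos rfl]
  · rw [← hs l hl, hB, if_neg (Fin.succ_ne_zero l)]
  · rw [hj', map_sub, hB, hB, if_neg (Fin.succ_ne_zero j), if_pos rfl, zero_sub]

/-- `q`, `e` are linearly independent -/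
theorem cons_indep {ι : Type} {m : ℕ} {c : ι → ℂ} {lam : ι → Fin (m + 1) → ℂ} (h : GenPos c lam)
    {x : Fin (m + 1) → K} (hx : AlgebraicIndependent ℂ x) (hH : ∀ j, hval c lam x j ≠ 0)
    (a b : Fin m → ι) (ha : Function.Injective a) (hb : Function.Injective b)
    (hab : ∀ l l', a l ≠ b l') (i j : Fin m) (hij : i ≠ j) :
    LinearIndependent K (Fin.cons (eta c lam x (a i) - eta c lam x (a j))
      (fun l => eta c lam x (a l) - eta c lam x (b l)) : Fin (m + 1) → Fin (m + 1) → K) := by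
  obtain ⟨φ₀, φ, h1, h2, h3, h4, h5⟩ := dual h hx hH a b ha hb hab i j hij
  rw [linearIndependent_finCons]
  constructor
  · rw [Fintype.linearIndependent_iff]
    intro g hg l
    have h6 := congrArg (φ l) hg
    rw [map_sum, map_zero] at h6
    simp only [map_smul, h1, smul_eq_mul, mul_ite, mul_one, mul_zero, Finset.sum_ite_eq,
      Finset.mem_univ, if_true] at h6
    exact h6
  · intro h6
    rw [Submodule.mem_span_range_iff_exists_fun] at h6
    obtain ⟨g, hg⟩ := h6
    have h7 : ∀ l, g l = 0 := by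
      intro l
      have h8 := congrArg (φ l) hg
      rw [map_sum, h2] at h8
      simp only [map_smul, h1, smul_eq_mul, mul_ite, mul_one, mul_zero, Finset.sum_ite_eq,
        Finset.mem_univ, if_true] at h8
      exact h8
    simp only [h7, zero_smul, Finset.sum_const_zero] at hg
    rw [← hg, map_zero] at h3
    exact zero_ne_one h3

/-- a covector which is in the span of the logarithmic forms of each perfect matching is zero -/
theorem three {m : ℕ} (hm : 2 ≤ m) {c : Fin m ⊕ Fin m → ℂ} {lam : Fin m ⊕ Fin m → Fin (m + 1) → ℂ}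
    (h : GenPos c lam) {x : Fin (m + 1) → K} (hx : AlgebraicIndependent ℂ x)
    (hH : ∀ j, hval c lam x j ≠ 0) (ξ : Fin (m + 1) → K)
    (hξ : ∀ π : Equiv.Perm (Fin m ⊕ Fin m), ∃ A : Fin m → K, ξ = ∑ l, A l •
      (eta c lam x (π (Sum.inl l)) - eta c lam x (π (Sum.inr l)))) : ξ = 0 := by
  classical
  obtain ⟨A, hA⟩ := hξ 1
  simp only [Equiv.Perm.coe_one, id_eq] at hA
  suffices hz : ∀ i, A i = 0 by
    rw [hA]
    simp only [hz, zero_smul, Finset.sum_const_zero]
  intro i
  obtain ⟨j, hij⟩ : ∃ j : Fin m, i ≠ j := by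
    have : Nontrivial (Fin m) := Fin.nontrivial_iff_two_le.2 hm
    obtain ⟨j, hj⟩ := exists_ne i
    exact ⟨j, hj.symm⟩
  obtain ⟨φ₀, φ, h1, h2, h3, h4, h5⟩ := dual h hx hH (Sum.inl : Fin m → Fin m ⊕ Fin m) Sum.inr
    Sum.inl_injective Sum.inr_injective (fun l l' => Sum.inl_ne_inr) i j hij
  obtain ⟨A', hA'⟩ := hξ (Equiv.swap (Sum.inr i) (Sum.inr j))
  obtain ⟨A'', hA''⟩ := hξ (Equiv.swap (Sum.inr i) (Sum.inl j))
  -- values of the swaps
  have e1 : ∀ l : Fin m, Equiv.swap (Sum.inr i : Fin m ⊕ Fin m) (Sum.inr j) (Sum.inl l) = Sum.inl l :=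
    fun l => Equiv.swap_apply_of_ne_of_ne (by simp) (by simp)
  have e2 : ∀ l : Fin m, l ≠ i → l ≠ j →
      Equiv.swap (Sum.inr i : Fin m ⊕ Fin m) (Sum.inr j) (Sum.inr l) = Sum.inr l :=
    fun l hl hl' => Equiv.swap_apply_of_ne_of_ne (by simpa using hl) (by simpa using hl')
  have e3 : ∀ l : Fin m, l ≠ j →
      Equiv.swap (Sum.inr i : Fin m ⊕ Fin m) (Sum.inl j) (Sum.inl l) = Sum.inl l :=
    fun l hl => Equiv.swap_apply_of_ne_of_ne (by simp) (by simpa using hl)
  have e4 : ∀ l : Fin m, l ≠ i →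
      Equiv.swap (Sum.inr i : Fin m ⊕ Fin m) (Sum.inl j) (Sum.inr l) = Sum.inr l :=
    fun l hl => Equiv.swap_apply_of_ne_of_ne (by simpa using hl) (by simp)
  set E : Fin m ⊕ Fin m → Fin (m + 1) → K := eta c lam x with hE
  -- first matching
  have s1 : φ i ξ = A i := by
    rw [hA, map_sum]
    simp only [map_smul, h1, smul_eq_mul, mul_ite, mul_one, mul_zero, Finset.sum_ite_eq,
      Finset.mem_univ, if_true]
  have s2 : φ j ξ = A j := by
    rw [hA, map_sum]
    simp only [map_smul, h1, smul_eq_mul, mul_ite, mul_one, mul_zero, Finset.sum_ite_eq,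
      Finset.mem_univ, if_true]
  have s3 : φ₀ ξ = - A j := by
    rw [hA, map_sum, Fintype.sum_eq_add i j hij]
    · rw [map_smul, map_smul, h4 i hij, h5]
      simp
    · intro l hl
      rw [map_smul, h4 l hl.2, smul_zero]
  -- second matching
  have t1 : E (Sum.inl i) - E (Sum.inr j) =
      (E (Sum.inl j) - E (Sum.inr j)) + (E (Sum.inl i) - E (Sum.inl j)) := by abel
  have t2 : E (Sum.inl j) - E (Sum.inr i) =
      (E (Sum.inl i) - E (Sum.inr i)) - (E (Sum.inl i) - E (Sum.inl j)) := by abel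
  have s4 : ∀ ψ : (Fin (m + 1) → K) →ₗ[K] K,
      (∀ l, l ≠ i → l ≠ j → ψ (E (Sum.inl l) - E (Sum.inr l)) = 0) →
      ψ ξ = A' i * ψ (E (Sum.inl i) - E (Sum.inr j)) + A' j * ψ (E (Sum.inl j) - E (Sum.inr i)) := by
    intro ψ hψ
    rw [hA', map_sum, Fintype.sum_eq_add i j hij]
    · rw [map_smul, map_smul, smul_eq_mul, smul_eq_mul, e1, e1, Equiv.swap_apply_left,
        Equiv.swap_apply_right]
    · intro l hl
      rw [map_smul, e1, e2 l hl.1 hl.2, hψ l hl.1 hl.2, smul_zero]
  have v1 : ∀ ψ : (Fin (m + 1) → K) →ₗ[K] K, ψ (E (Sum.inl i) - E (Sum.inr j)) =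
      ψ (E (Sum.inl j) - E (Sum.inr j)) + ψ (E (Sum.inl i) - E (Sum.inl j)) := by
    intro ψ
    rw [t1]
    simp only [map_sub, map_add]
  have v2 : ∀ ψ : (Fin (m + 1) → K) →ₗ[K] K, ψ (E (Sum.inl j) - E (Sum.inr i)) =
      ψ (E (Sum.inl i) - E (Sum.inr i)) - ψ (E (Sum.inl i) - E (Sum.inl j)) := by
    intro ψ
    rw [t2]
    simp only [map_sub]
  have s5 : φ i ξ = A' j := by
    rw [s4 (φ i) fun l hl _ => by rw [h1, if_neg (Ne.symm hl)], v1, v2, h1, h1, h2,
      if_neg hij, if_pos rfl]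
    ring
  have s6 : φ₀ ξ = - A' j := by
    rw [s4 φ₀ fun l _ hl => h4 l hl, v1, v2, h5, h3, h4 i hij]
    ring
  -- third matching
  have t3 : E (Sum.inr i) - E (Sum.inr j) = (E (Sum.inl j) - E (Sum.inr j)) +
      (E (Sum.inl i) - E (Sum.inl j)) - (E (Sum.inl i) - E (Sum.inr i)) := by abel
  have s7 : ∀ ψ : (Fin (m + 1) → K) →ₗ[K] K,
      (∀ l, l ≠ i → l ≠ j → ψ (E (Sum.inl l) - E (Sum.inr l)) = 0) →
      ψ ξ = A'' i * ψ (E (Sum.inl i) - E (Sum.inl j)) +
        A'' j * ψ (E (Sum.inr i) - E (Sum.inr j)) := by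
    intro ψ hψ
    rw [hA'', map_sum, Fintype.sum_eq_add i j hij]
    · rw [map_smul, map_smul, smul_eq_mul, smul_eq_mul, e3 i hij, Equiv.swap_apply_left,
        Equiv.swap_apply_right, e4 j (Ne.symm hij)]
    · intro l hl
      rw [map_smul, e3 l hl.2, e4 l hl.1, hψ l hl.1 hl.2, smul_zero]
  have v3 : ∀ ψ : (Fin (m + 1) → K) →ₗ[K] K, ψ (E (Sum.inr i) - E (Sum.inr j)) =
      ψ (E (Sum.inl j) - E (Sum.inr j)) + ψ (E (Sum.inl i) - E (Sum.inl j)) -
        ψ (E (Sum.inl i) - E (Sum.inr i)) := by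
    intro ψ
    rw [t3]
    simp only [map_sub, map_add]
  have s8 : φ i ξ = - A'' j := by
    rw [s7 (φ i) fun l hl _ => by rw [h1, if_neg (Ne.symm hl)], v3, h1, h1, h2,
      if_neg hij, if_pos rfl]
    ring
  have s9 : φ j ξ = A'' j := by
    rw [s7 (φ j) fun l _ hl => by rw [h1, if_neg (Ne.symm hl)], v3, h1, h1, h2,
      if_pos rfl, if_neg (Ne.symm hij)]
    ring
  have u1 : A i = A j := by
    have h6 : A j = A' j := neg_injective (s3.symm.trans s6)
    rw [h6, ← s5, s1]
  have u2 : A i = - A j := by rw [← s1, s8, ← s9, s2]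
  have u3 : (2 : K) * A j = 0 := by
    have : A j = - A j := u1.symm.trans u2
    linear_combination this
  have : CharZero K := charZero_of_injective_algebraMap (algebraMap ℂ K).injective
  rw [u1]
  exact (mul_eq_zero.1 u3).resolve_left two_ne_zero

end Pool.Agent.HP
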